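import Pool.Agent.H39.OP.UNlin
import Pool.Agent.H27.OP.Wt

set_option autoImplicit false
set_option linter.unusedSectionVars false

/-!
# Generation of the bi-cycles (part (S) of S00287)

Every bi-cycle of coefficient degree `m + 1 > s + i` is `∑ x ζ_x` with bi-cycles `ζ_x` of
coefficient degree `m`.
-/

open MvPolynomial

namespace Pool.Agent.H48.OPG

open Pool.Agent.H27.OP Pool.Agent.H39.OP

/-! ### direct summands of `NM` -/

section summand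

variable {r : ℕ} {𝔽 : Type*} [AddCommGroup 𝔽] [Module ℂ 𝔽]
  [Module (MvPolynomial (Fin r) ℂ) 𝔽] [IsScalarTower ℂ (MvPolynomial (Fin r) ℂ) 𝔽]

theorem dU_map {A A' : Type*} [AddCommGroup A] [Module ℂ A]
    [Module (MvPolynomial (Fin r) ℂ) A] [IsScalarTower ℂ (MvPolynomial (Fin r) ℂ) A]
    [AddCommGroup A'] [Module ℂ A'] [Module (MvPolynomial (Fin r) ℂ) A']
    [IsScalarTower ℂ (MvPolynomial (Fin r) ℂ) A']
    (L : A →ₗ[MvPolynomial (Fin r) ℂ] A') (η : Finset (Fin r) → A) (J : Finset (Fin r)) :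
    dU (fun J => L (η J)) J = L (dU η J) := by
  unfold dU
  rw [map_sum]
  refine Finset.sum_congr rfl fun s _ => ?_
  rw [map_smul, aJ_apply, aJ_apply]
  split_ifs
  · rw [map_zero]
  · rw [LinearMap.map_smul_of_tower]

/-- a direct summand of the relations `NM φ M` -/
theorem lin_summand {N d : ℕ} (hd : 1 ≤ d) (φ : Fin N → MvPolynomial (Fin r) ℂ)
    (hφ : ∀ j, (φ j).IsHomogeneous d)
    (hsp : ∀ p : MvPolynomial (Fin r) ℂ, p.IsHomogeneous d → p ∈ Submodule.span ℂ (Set.range φ))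
    {M : ℕ → Submodule ℂ 𝔽} (hM : GradM r M) {ρ : ℕ} (hl : LinM r M ρ)
    {M' : ℕ → Submodule ℂ 𝔽} (Jm Em : Fin N → 𝔽 →ₗ[MvPolynomial (Fin r) ℂ] 𝔽) {t : ℂ}
    (ht : t ≠ 0)
    (h1 : ∀ K, ∀ y ∈ M' K, (fun j => Jm j y) ∈ NM φ M K)
    (h2 : ∀ K, ∀ v ∈ NM φ M K, ∑ j, Em j (v j) ∈ M' K)
    (h3 : ∀ K, ∀ y ∈ M' K, ∑ j, Em j (Jm j y) = t • y) : LinM r M' (ρ + 1) := by
  have hN := N_lin hd φ hφ hsp hM hl
  intro i K hK η hη hs hd0
  obtain ⟨ξ', hξ1, hξ2, hξ3⟩ := hN i K hK (fun J j => Jm j (η J)) (fun J => h1 _ _ (hη J))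
    (fun J hJ => by
      funext j
      rw [hs J hJ, map_zero]
      rfl)
    (by
      funext J
      have := dU_map (LinearMap.pi Jm) η J
      rw [hd0, Pi.zero_apply, map_zero] at this
      exact this)
  obtain ⟨Φ, hΦ⟩ : ∃ Φ : (Fin N → 𝔽) →ₗ[MvPolynomial (Fin r) ℂ] 𝔽,
      Φ = ∑ j, (Em j).comp (LinearMap.proj j) := ⟨_, rfl⟩
  have hΦa : ∀ v, Φ v = ∑ j, Em j (v j) := by
    intro v
    rw [hΦ, LinearMap.sum_apply]
    rfl
  refine ⟨fun J => t⁻¹ • Φ (ξ' J), fun J => ?_, fun J hJ => ?_, ?_⟩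
  · dsimp only
    rw [hΦa]
    exact Submodule.smul_mem _ _ (h2 _ _ (hξ1 J))
  · dsimp only
    rw [hξ2 J hJ, map_zero, smul_zero]
  · funext J
    have h4 := dU_map ((C t⁻¹ : MvPolynomial (Fin r) ℂ) • Φ) ξ' J
    have h5 : (fun J => ((C t⁻¹ : MvPolynomial (Fin r) ℂ) • Φ) (ξ' J))
        = fun J => t⁻¹ • Φ (ξ' J) := by
      funext J
      rw [LinearMap.smul_apply, ← algebraMap_eq, algebraMap_smul]
    rw [h5] at h4
    rw [h4, hξ3, LinearMap.smul_apply, ← algebraMap_eq, algebraMap_smul, hΦa,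
      h3 _ _ (hη J), smul_smul, inv_mul_cancel₀ ht, one_smul]

end summand

end Pool.Agent.H48.OPG
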